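import Mathlib
import Pool.Agent.MP_ba6658_pr.Log.D

set_option autoImplicit false

open MeasureTheory ProbabilityTheory

namespace Pool.Agent.Results.MP_ba6658_pr.LogGauge

theorem result :
    ∀ (Ω : Type) [MeasurableSpace Ω] (P : Measure Ω) [IsProbabilityMeasure P]
      (B : Fin 2 → ℝ → ℝ → Ω → ℝ),
      (∀ (i : Fin 2) (ω : Ω),
        ContinuousOn (fun p : ℝ × ℝ => B i p.1 p.2 ω) {p : ℝ × ℝ | 0 ≤ p.1 ∧ 0 ≤ p.2}) →
      (∀ (n : ℕ) (idx : Fin n → Fin 2) (s t c : Fin n → ℝ),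
        (∀ k, 0 ≤ s k) → (∀ k, 0 ≤ t k) →
        P.map (fun ω => ∑ k, c k * B (idx k) (s k) (t k) ω) =
          gaussianReal 0
            (∑ k, ∑ l, (if idx k = idx l then
              c k * c l * (min (s k) (s l) * min (t k) (t l)) else 0)).toNNReal) →
      ∀ᵐ ω ∂P, ∃ s : ℝ, 0 < s ∧
        0 < (Measure.mkMetric (fun r : ENNReal => ENNReal.ofReal
              (Real.log (Real.log (1 / r.toReal)) ^ 3 / Real.log (1 / r.toReal))) : Measure ℝ)
            {t : ℝ | 0 < t ∧ ∀ i : Fin 2, B i s t ω = 0} ∧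
        ¬ Set.Countable {t : ℝ | 0 < t ∧ ∀ i : Fin 2, B i s t ω = 0} := by
  intro Ω _ P _ B hc hl
  filter_upwards [Pool.Agent.MP_ba6658_pr.Log.main Ω P B hc hl] with ω hω
  obtain ⟨y, t, h4, h5, h6⟩ := hω
  exact ⟨Real.exp y, Real.exp_pos y, Pool.Agent.MP_ba6658_pr.Log.mass t h5 _
    fun w => ⟨h4 w, h6 w⟩⟩

end Pool.Agent.Results.MP_ba6658_pr.LogGauge
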